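import Pool.Agent.Lib.MP_23961f_co.Subset

set_option autoImplicit false

open scoped InnerProductSpace Topology

namespace Pool.Agent.Lib.MP_23961f_co

variable {V : Type*} [Fintype V]

open Classical in
/-- Generic configurations along an order in which every vertex has at most `k` lower
neighbours, in dimension `2k+1`. -/
lemma exists_generic {E : Type*} [NormedAddCommGroup E] [InnerProductSpace ℝ E]
    [FiniteDimensional ℝ E] {F : SimpleGraph V} {ℓ : V → ℕ} (k : ℕ)
    (hindep : ∀ u v, F.Adj u v → ℓ u ≠ ℓ v)
    (hk : ∀ v, (low F ℓ Finset.univ v).card ≤ k) (hd : Module.finrank ℝ E = 2 * k + 1) :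
    ∀ (n : ℕ) (S : Finset V), S.card = n → ∃ u : V → E, Good F ℓ S u ∧
      (∀ a ∈ S, ∀ b ∈ S, a ≠ b → ¬ F.Adj a b → ⟪u a, u b⟫_ℝ ≠ 0) ∧
      ∀ T : Finset V, T ⊆ S → T.card ≤ k + 1 → LinearIndepOn ℝ u (T : Set V) := by
  intro n
  induction n with
  | zero =>
    intro S hS
    rw [Finset.card_eq_zero] at hS
    subst hS
    refine ⟨0, ⟨by simp, by simp⟩, by simp, ?_⟩
    intro T hT _
    have : T = ∅ := Finset.subset_empty.1 hT
    subst this
    simp
  | succ n ih =>
    intro S hS
    have hSne : S.Nonempty := by
      rw [← Finset.card_pos]; omega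
    obtain ⟨v, hv, hvmax⟩ := Finset.exists_max_image S ℓ hSne
    have hcard : (S.erase v).card = n := by
      rw [Finset.card_erase_of_mem hv]; omega
    obtain ⟨u, hu1, hu2, hu3⟩ := ih (S.erase v) hcard
    set S' := S.erase v with hS'
    let N : Finset V := low F ℓ S v
    have hNcard : N.card ≤ k := by
      refine le_trans (Finset.card_le_card ?_) (hk v)
      intro w hw
      have hw' := mem_low.1 hw
      exact mem_low.2 ⟨Finset.mem_univ _, hw'.2⟩
    have hNS' : N ⊆ S' := by
      intro w hw
      have hw' := mem_low.1 hw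
      exact Finset.mem_erase.2 ⟨hw'.2.1.ne', hw'.1⟩
    let A : Finset V := S'.filter (fun a => ¬ F.Adj v a)
    let L : Submodule ℝ E := (Submodule.span ℝ (u '' (N : Set V)))ᗮ
    have hfinspan : ∀ T : Finset V,
        Module.finrank ℝ (Submodule.span ℝ (u '' (T : Set V))) ≤ T.card := by
      intro T
      have := finrank_span_finset_le_card (R := ℝ) (T.image u)
      rw [Set.finrank, Finset.coe_image] at this
      exact this.trans Finset.card_image_le
    have hLdim : k + 1 ≤ Module.finrank ℝ L := by
      have h1 := Submodule.finrank_add_finrank_orthogonal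
        (Submodule.span ℝ (u '' (N : Set V)))
      have h2 := hfinspan N
      rw [hd] at h1
      have h3 : Module.finrank ℝ L =
        Module.finrank ℝ (Submodule.span ℝ (u '' (N : Set V)))ᗮ := rfl
      omega
    have hx : ∃ x ∈ L, (∀ a ∈ A, ⟪x, u a⟫_ℝ ≠ 0) ∧
        ∀ T : Finset V, T ⊆ S' → T.card ≤ k → x ∉ Submodule.span ℝ (u '' (T : Set V)) := by
      let P : V → Submodule ℝ L := fun a =>
        LinearMap.ker ((innerSL ℝ (u a)).toLinearMap ∘ₗ L.subtype)
      let R : Finset V → Submodule ℝ L := fun T =>
        (Submodule.span ℝ (u '' (T : Set V))).comap L.subtype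
      let PP : Finset (Submodule ℝ L) := A.image P ∪
        ((S'.powerset).filter (fun T => T.card ≤ k)).image R
      have hnt : (⊤ : Submodule ℝ L) ∉ PP := by
        intro htop
        rcases Finset.mem_union.1 htop with h | h
        · obtain ⟨a, ha, hPa⟩ := Finset.mem_image.1 h
          have ha' := Finset.mem_filter.1 ha
          have haN : a ∉ N := fun haN => ha'.2 (mem_low.1 haN).2.1
          have hind := hu3 (insert a N) (Finset.insert_subset ha'.1 hNS') (by
            have := Finset.card_insert_le a N
            omega)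
          rw [Finset.coe_insert, linearIndepOn_insert (by simpa using haN)] at hind
          apply hind.2
          have hmem : u a ∈ Lᗮ := by
            rw [Submodule.mem_orthogonal]
            intro y hy
            have : (⟨y, hy⟩ : L) ∈ P a := by rw [hPa]; trivial
            have h2 : ⟪u a, y⟫_ℝ = 0 := by simpa [P] using this
            rw [real_inner_comm]; exact h2
          rw [Submodule.orthogonal_orthogonal] at hmem
          exact hmem
        · obtain ⟨T, hT, hRT⟩ := Finset.mem_image.1 h
          have hT' := Finset.mem_filter.1 hT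
          have hle : L ≤ Submodule.span ℝ (u '' (T : Set V)) := by
            intro y hy
            have : (⟨y, hy⟩ : L) ∈ R T := by rw [hRT]; trivial
            simpa [R] using this
          have h1 := Submodule.finrank_mono hle
          have h2 := hfinspan T
          omega
      have hun := Subspace.biUnion_ne_univ_of_top_notMem (k := ℝ) (E := L) (s := PP) hnt
      obtain ⟨x, hx⟩ := (Set.ne_univ_iff_exists_notMem _).1 hun
      refine ⟨x, x.2, ?_, ?_⟩
      · intro a ha hzero
        apply hx
        simp only [Set.mem_iUnion]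
        refine ⟨P a, Finset.mem_union_left _ (Finset.mem_image.2 ⟨a, ha, rfl⟩), ?_⟩
        simp only [P, SetLike.mem_coe, LinearMap.mem_ker]
        rw [real_inner_comm] at hzero
        simpa using hzero
      · intro T hT hTk hmem
        apply hx
        simp only [Set.mem_iUnion]
        refine ⟨R T, Finset.mem_union_right _ (Finset.mem_image.2
          ⟨T, Finset.mem_filter.2 ⟨Finset.mem_powerset.2 hT, hTk⟩, rfl⟩), ?_⟩
        simpa [R] using hmem
    obtain ⟨x, hxL, hxA, hxT⟩ := hx
    have hxN : ∀ w ∈ N, ⟪u w, x⟫_ℝ = 0 := fun w hw =>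
      (Submodule.mem_orthogonal _ _).1 hxL _ (Submodule.subset_span ⟨w, hw, rfl⟩)
    have hagreeT : ∀ T : Finset V, v ∉ T →
        Set.EqOn u (Function.update u v x) (T : Set V) := by
      intro T hT z hz
      have hzv : z ≠ v := fun h => hT (h ▸ hz)
      rw [Function.update_of_ne hzv]
    refine ⟨Function.update u v x, ⟨?_, ?_⟩, ?_, ?_⟩
    · intro a ha b hb hab
      by_cases hav : a = v
      · subst hav
        have hba : b ≠ a := hab.ne'
        rw [Function.update_self, Function.update_of_ne hba, real_inner_comm]
        apply hxN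
        exact mem_low.2 ⟨hb, hab, lt_of_le_of_ne (hvmax b hb) (fun h' => hindep _ _ hab h'.symm)⟩
      · by_cases hbv : b = v
        · subst hbv
          rw [Function.update_self, Function.update_of_ne hav]
          apply hxN
          exact mem_low.2 ⟨ha, hab.symm, lt_of_le_of_ne (hvmax a ha) (fun h' => hindep _ _ hab h')⟩
        · rw [Function.update_of_ne hav, Function.update_of_ne hbv]
          exact hu1.1 a (Finset.mem_erase.2 ⟨hav, ha⟩) b (Finset.mem_erase.2 ⟨hbv, hb⟩) hab
    · intro w hw
      have hvlow : v ∉ low F ℓ S w := by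
        intro hvw
        have h1 := mem_low.1 hvw
        have := hvmax w hw
        omega
      refine LinearIndepOn.congr ?_ (hagreeT _ hvlow)
      apply hu3
      · intro z hz
        have hz' := mem_low.1 hz
        exact Finset.mem_erase.2 ⟨fun h => hvlow (h ▸ hz), hz'.1⟩
      · have h1 : (low F ℓ S w).card ≤ (low F ℓ Finset.univ w).card := by
          apply Finset.card_le_card
          intro z hz
          exact mem_low.2 ⟨Finset.mem_univ _, (mem_low.1 hz).2⟩
        have := hk w
        omega
    · intro a ha b hb hab hF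
      by_cases hav : a = v
      · subst hav
        have hba : b ≠ a := hab.symm
        rw [Function.update_self, Function.update_of_ne hba]
        exact hxA b (Finset.mem_filter.2 ⟨Finset.mem_erase.2 ⟨hba, hb⟩, hF⟩)
      · by_cases hbv : b = v
        · subst hbv
          rw [Function.update_self, Function.update_of_ne hav, real_inner_comm]
          exact hxA a (Finset.mem_filter.2 ⟨Finset.mem_erase.2 ⟨hav, ha⟩, fun h' => hF h'.symm⟩)
        · rw [Function.update_of_ne hav, Function.update_of_ne hbv]
          exact hu2 a (Finset.mem_erase.2 ⟨hav, ha⟩) b (Finset.mem_erase.2 ⟨hbv, hb⟩) hab hF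
    · intro T hT hTk
      by_cases hvT : v ∈ T
      · have hE : T.erase v ⊆ S' := by
          intro z hz
          have hz' := Finset.mem_erase.1 hz
          exact Finset.mem_erase.2 ⟨hz'.1, hT hz'.2⟩
        have hEc : (T.erase v).card ≤ k := by
          rw [Finset.card_erase_of_mem hvT]; omega
        have hins : (T : Set V) = insert v ((T.erase v : Finset V) : Set V) := by
          rw [← Finset.coe_insert, Finset.insert_erase hvT]
        have hag := hagreeT (T.erase v) (Finset.notMem_erase _ _)
        rw [hins, linearIndepOn_insert (by simp), ← Set.EqOn.image_eq hag, Function.update_self]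
        refine ⟨(hu3 _ hE (by omega)).congr hag, hxT _ hE hEc⟩
      · refine LinearIndepOn.congr ?_ (hagreeT _ hvT)
        apply hu3 T _ hTk
        intro z hz
        exact Finset.mem_erase.2 ⟨fun h => hvT (h ▸ hz), hT hz⟩

open Classical in
/-- An order with few lower neighbours for a degenerate graph. -/
lemma exists_order (F : SimpleGraph V) (k : ℕ)
    (h : ∀ S : Finset V, S.Nonempty → ∃ v ∈ S, (nb F S v).card ≤ k) :
    ∃ ℓ : V → ℕ, Function.Injective ℓ ∧ ∀ v, (low F ℓ Finset.univ v).card ≤ k := by
  have main : ∀ (n : ℕ) (S : Finset V), S.card = n → ∃ ℓ : V → ℕ, Set.InjOn ℓ (S : Set V) ∧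
      (∀ v ∈ S, ℓ v < n) ∧ ∀ v ∈ S, (low F ℓ S v).card ≤ k := by
    intro n
    induction n with
    | zero =>
      intro S hS
      rw [Finset.card_eq_zero] at hS
      subst hS
      exact ⟨fun _ => 0, by simp, by simp, by simp⟩
    | succ n ih =>
      intro S hS
      obtain ⟨v, hv, hvk⟩ := h S (by rw [← Finset.card_pos]; omega)
      obtain ⟨ℓ, h1, h2, h3⟩ := ih (S.erase v) (by rw [Finset.card_erase_of_mem hv]; omega)
      refine ⟨Function.update ℓ v n, ?_, ?_, ?_⟩
      · intro a ha b hb hab
        by_cases hav : a = v
        · by_cases hbv : b = v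
          · rw [hav, hbv]
          · rw [hav, Function.update_self, Function.update_of_ne hbv] at hab
            have := h2 b (Finset.mem_erase.2 ⟨hbv, hb⟩)
            omega
        · by_cases hbv : b = v
          · rw [hbv, Function.update_self, Function.update_of_ne hav] at hab
            have := h2 a (Finset.mem_erase.2 ⟨hav, ha⟩)
            omega
          · rw [Function.update_of_ne hav, Function.update_of_ne hbv] at hab
            exact h1 (Finset.mem_coe.2 (Finset.mem_erase.2 ⟨hav, ha⟩))
              (Finset.mem_coe.2 (Finset.mem_erase.2 ⟨hbv, hb⟩)) hab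
      · intro a ha
        by_cases hav : a = v
        · rw [hav, Function.update_self]; omega
        · rw [Function.update_of_ne hav]
          have := h2 a (Finset.mem_erase.2 ⟨hav, ha⟩)
          omega
      · intro a ha
        by_cases hav : a = v
        · refine le_trans (Finset.card_le_card ?_) hvk
          intro w hw
          have hw' := mem_low.1 hw
          rw [hav] at hw'
          exact mem_nb.2 ⟨hw'.1, hw'.2.1⟩
        · refine le_trans (Finset.card_le_card ?_) (h3 a (Finset.mem_erase.2 ⟨hav, ha⟩))
          intro w hw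
          have hw' := mem_low.1 hw
          have ha2 := h2 a (Finset.mem_erase.2 ⟨hav, ha⟩)
          have hwv : w ≠ v := by
            intro hwv
            have h4 := hw'.2.2
            rw [hwv, Function.update_self, Function.update_of_ne hav] at h4
            omega
          have h4 := hw'.2.2
          rw [Function.update_of_ne hwv, Function.update_of_ne hav] at h4
          exact mem_low.2 ⟨Finset.mem_erase.2 ⟨hwv, hw'.1⟩, hw'.2.1, h4⟩
  obtain ⟨ℓ, h1, _, h3⟩ := main _ Finset.univ rfl
  refine ⟨ℓ, ?_, fun v => h3 v (Finset.mem_univ _)⟩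
  intro a b hab
  exact h1 (by simp) (by simp) hab

open Classical in
/-- A `k`-degenerate complement gives a matrix of rank at most `2k+1`. -/
theorem exists_matrix_of_degenerate [DecidableEq V] (G : SimpleGraph V) (k : ℕ)
    (h : ∀ S : Finset V, S.Nonempty → ∃ v ∈ S, (nb Gᶜ S v).card ≤ k) :
    ∃ A : Matrix V V ℝ, A.PosSemidef ∧ (∀ i j, i ≠ j → (A i j ≠ 0 ↔ G.Adj i j)) ∧
      (∀ X : Matrix V V ℝ, X.IsSymm → (∀ i, X i i = 0) →
            (∀ i j, G.Adj i j → X i j = 0) → A * X = 0 → X = 0) ∧ A.rank ≤ 2 * k + 1 := by
  obtain ⟨ℓ, hinj, hlow⟩ := exists_order Gᶜ k h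
  have hindep : ∀ u v, Gᶜ.Adj u v → ℓ u ≠ ℓ v := fun u v huv he => huv.ne (hinj he)
  have hd : Module.finrank ℝ (EuclideanSpace ℝ (Fin (2 * k + 1))) = 2 * k + 1 := by simp
  obtain ⟨u, hu, huf, _⟩ :=
    exists_generic (E := EuclideanSpace ℝ (Fin (2 * k + 1))) k hindep hlow hd _ Finset.univ rfl
  have := matrix_of_good G ℓ hindep u hu huf
  rwa [hd] at this

end Pool.Agent.Lib.MP_23961f_co
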