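import Pool.Agent.Lib.MP_23961f_co.Staircase

set_option autoImplicit false

namespace Pool.Agent.Lib.MP_23961f_co

variable {V : Type*} [Fintype V]

open Classical in
/-- A graph all of whose degrees are below `d` has a level structure in dimension `d`. -/
lemma exists_levelStructure_of_degree (F : SimpleGraph V) (d : ℕ)
    (hd' : ∀ v, Set.ncard {u | F.Adj v u} < d) :
    ∃ ℓ : V → ℕ, LevelStructure F d ℓ := by
  have hd : ∀ v, (Finset.univ.filter (fun u => F.Adj v u)).card < d := by
    intro v
    have h := hd' v
    have hset : {u | F.Adj v u} = ((Finset.univ.filter (fun u => F.Adj v u) : Finset V) : Set V) := by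
      ext u; simp
    rwa [hset, Set.ncard_coe_finset] at h
  have main : ∀ j : ℕ, ∃ ℓ : V → ℕ, (∀ v, ℓ v ≤ j) ∧
      (∀ u v, F.Adj u v → ℓ u = ℓ v → ℓ v = j) ∧
      (∀ v i, i ≤ ℓ v → i ≤ (Finset.univ.filter (fun u => F.Adj v u ∧ ℓ u < i)).card) ∧
      (∀ v, ℓ v < j → (Finset.univ.filter (fun u => F.Adj v u ∧ ℓ u < ℓ v)).card ≤ ℓ v) := by
    intro j
    induction j with
    | zero =>
      refine ⟨fun _ => 0, by simp, by simp, ?_, by simp⟩
      intro v i hi
      simp only [nonpos_iff_eq_zero] at hi
      subst hi
      simp
    | succ j ih =>
      obtain ⟨ℓ, h1, h2, h3, h4⟩ := ih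
      -- eligible vertices
      let P : Finset V → Prop := fun M =>
        (∀ v ∈ M, ℓ v = j ∧ (Finset.univ.filter (fun u => F.Adj v u ∧ ℓ u < j)).card ≤ j) ∧
          ∀ u ∈ M, ∀ v ∈ M, ¬ F.Adj u v
      have hP0 : P ∅ := by simp [P]
      obtain ⟨M, hM, hMmax⟩ := Finset.exists_max_image
        (Finset.univ.filter (fun M : Finset V => P M)) Finset.card
        ⟨∅, Finset.mem_filter.2 ⟨Finset.mem_univ _, hP0⟩⟩
      have hMP : P M := (Finset.mem_filter.1 hM).2
      let ℓ' : V → ℕ := fun v => if v ∈ M ∨ ℓ v < j then ℓ v else j + 1
      have e1 : ∀ v, v ∈ M → ℓ' v = j := by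
        intro v hv
        simp only [ℓ', hv, true_or, if_true]
        exact (hMP.1 v hv).1
      have e2 : ∀ v, ℓ v < j → ℓ' v = ℓ v := by
        intro v hv
        simp [ℓ', hv]
      have e3 : ∀ v, v ∉ M → ℓ v = j → ℓ' v = j + 1 := by
        intro v hv hj
        have : ¬ (v ∈ M ∨ ℓ v < j) := by
          rintro (h | h)
          · exact hv h
          · omega
        simp [ℓ', this]
      have hcases : ∀ v, (ℓ v < j ∧ ℓ' v = ℓ v) ∨ (v ∈ M ∧ ℓ v = j ∧ ℓ' v = j) ∨
          (v ∉ M ∧ ℓ v = j ∧ ℓ' v = j + 1) := by
        intro v
        rcases (h1 v).lt_or_eq with h | h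
        · exact Or.inl ⟨h, e2 v h⟩
        · by_cases hv : v ∈ M
          · exact Or.inr (Or.inl ⟨hv, h, e1 v hv⟩)
          · exact Or.inr (Or.inr ⟨hv, h, e3 v hv h⟩)
      have hlt : ∀ v i, i ≤ j → (ℓ' v < i ↔ ℓ v < i) := by
        intro v i hi
        rcases hcases v with h | h | h <;> omega
      have hfilt : ∀ v i, i ≤ j → (Finset.univ.filter (fun u => F.Adj v u ∧ ℓ' u < i)) =
          (Finset.univ.filter (fun u => F.Adj v u ∧ ℓ u < i)) := by
        intro v i hi
        ext u
        simp only [Finset.mem_filter, Finset.mem_univ, true_and, hlt u i hi]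
      refine ⟨ℓ', ?_, ?_, ?_, ?_⟩
      · intro v
        rcases hcases v with h | h | h <;> omega
      · intro u v huv he
        rcases hcases v with h | h | h
        · rcases hcases u with h' | h' | h'
          · have := h2 u v huv (by omega)
            omega
          · omega
          · omega
        · rcases hcases u with h' | h' | h'
          · omega
          · exact absurd huv (hMP.2 u h'.1 v h.1)
          · omega
        · exact h.2.2
      · intro v i hi
        rcases Nat.lt_or_ge i (j + 1) with hij | hij
        · rw [hfilt v i (by omega)]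
          apply h3
          rcases hcases v with h | h | h <;> omega
        · -- i = j + 1, v remaining
          rcases hcases v with h | h | h
          · omega
          · omega
          · have hi' : i = j + 1 := by omega
            subst hi'
            have hge := h3 v j (by omega)
            by_cases hex : (Finset.univ.filter (fun u => F.Adj v u ∧ ℓ u < j)).card ≤ j
            · -- maximality gives a neighbour in M
              have hnb : ∃ w ∈ M, F.Adj v w := by
                by_contra hno
                push Not at hno
                have hP' : P (insert v M) := by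
                  refine ⟨?_, ?_⟩
                  · intro w hw
                    rcases Finset.mem_insert.1 hw with rfl | hw
                    · exact ⟨h.2.1, hex⟩
                    · exact hMP.1 w hw
                  · intro a ha b hb
                    rcases Finset.mem_insert.1 ha with hav | haM
                    · rcases Finset.mem_insert.1 hb with hbv | hbM
                      · rw [hav, hbv]; exact F.loopless.irrefl _
                      · rw [hav]; exact hno b hbM
                    · rcases Finset.mem_insert.1 hb with hbv | hbM
                      · rw [hbv]; exact fun hab => hno a haM hab.symm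
                      · exact hMP.2 a haM b hbM
                have := hMmax (insert v M) (Finset.mem_filter.2 ⟨Finset.mem_univ _, hP'⟩)
                rw [Finset.card_insert_of_notMem h.1] at this
                omega
              obtain ⟨w, hwM, hvw⟩ := hnb
              have hwj : ℓ w = j := (hMP.1 w hwM).1
              have hsub : insert w (Finset.univ.filter (fun u => F.Adj v u ∧ ℓ u < j)) ⊆
                  (Finset.univ.filter (fun u => F.Adj v u ∧ ℓ' u < j + 1)) := by
                intro x hx
                rcases Finset.mem_insert.1 hx with rfl | hx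
                · exact Finset.mem_filter.2 ⟨Finset.mem_univ _, hvw, by rw [e1 x hwM]; omega⟩
                · have hx' := (Finset.mem_filter.1 hx).2
                  exact Finset.mem_filter.2 ⟨Finset.mem_univ _, hx'.1, by
                    rw [e2 x hx'.2]; omega⟩
              have hcard := Finset.card_le_card hsub
              rw [Finset.card_insert_of_notMem] at hcard
              · omega
              · intro hx
                have hx' := (Finset.mem_filter.1 hx).2
                omega
            · have hsub : (Finset.univ.filter (fun u => F.Adj v u ∧ ℓ u < j)) ⊆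
                  (Finset.univ.filter (fun u => F.Adj v u ∧ ℓ' u < j + 1)) := by
                intro x hx
                have hx' := (Finset.mem_filter.1 hx).2
                exact Finset.mem_filter.2 ⟨Finset.mem_univ _, hx'.1, by
                    rw [e2 x hx'.2]; omega⟩
              have hcard := Finset.card_le_card hsub
              omega
      · intro v hv
        rcases hcases v with h | h | h
        · rw [h.2, hfilt v (ℓ v) (by omega)]
          exact h4 v h.1
        · rw [h.2.2, hfilt v j le_rfl]
          exact (hMP.1 v h.1).2
        · omega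
  obtain ⟨ℓ, h1, h2, h3, h4⟩ := main d
  have hlt : ∀ v, ℓ v < d := by
    intro v
    rcases (h1 v).lt_or_eq with h | h
    · exact h
    · exfalso
      have h5 := h3 v d (by omega)
      have h6 := hd v
      have h7 : (Finset.univ.filter (fun u => F.Adj v u ∧ ℓ u < d)).card ≤
          (Finset.univ.filter (fun u => F.Adj v u)).card := by
        apply Finset.card_le_card
        intro x hx
        have hx' := (Finset.mem_filter.1 hx).2
        exact Finset.mem_filter.2 ⟨Finset.mem_univ _, hx'.1⟩
      omega
  refine ⟨ℓ, hlt, ?_, ?_⟩
  · intro u v huv he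
    have := h2 u v huv he
    have := hlt v
    omega
  · intro v i hi
    have hset : {u | F.Adj v u ∧ i ≤ ℓ u ∧ ℓ u < ℓ v} =
        ((Finset.univ.filter (fun u => F.Adj v u ∧ i ≤ ℓ u ∧ ℓ u < ℓ v) : Finset V) : Set V) := by
      ext u; simp
    rw [hset, Set.ncard_coe_finset]
    have h5 := h3 v i hi
    have h6 := h4 v (hlt v)
    have hdisj : Disjoint (Finset.univ.filter (fun u => F.Adj v u ∧ ℓ u < i))
        (Finset.univ.filter (fun u => F.Adj v u ∧ i ≤ ℓ u ∧ ℓ u < ℓ v)) := by
      rw [Finset.disjoint_left]
      intro x hx hx2
      have hx' := (Finset.mem_filter.1 hx).2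
      have hx2' := (Finset.mem_filter.1 hx2).2
      omega
    have hsub : (Finset.univ.filter (fun u => F.Adj v u ∧ ℓ u < i)) ∪
        (Finset.univ.filter (fun u => F.Adj v u ∧ i ≤ ℓ u ∧ ℓ u < ℓ v)) ⊆
        (Finset.univ.filter (fun u => F.Adj v u ∧ ℓ u < ℓ v)) := by
      intro x hx
      rcases Finset.mem_union.1 hx with hx | hx
      · have hx' := (Finset.mem_filter.1 hx).2
        exact Finset.mem_filter.2 ⟨Finset.mem_univ _, hx'.1, by omega⟩
      · have hx' := (Finset.mem_filter.1 hx).2
        exact Finset.mem_filter.2 ⟨Finset.mem_univ _, hx'.1, hx'.2.2⟩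
    have hcard := Finset.card_le_card hsub
    rw [Finset.card_union_of_disjoint hdisj] at hcard
    omega

end Pool.Agent.Lib.MP_23961f_co
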