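import Mathlib

set_option autoImplicit false

open scoped InnerProductSpace Topology
open Filter

namespace Pool.Agent.Lib.MP_23961f_co

variable {V : Type*} [Fintype V]

/-- A level structure for the graph `F` in dimension `d`: every vertex gets a level below `d`,
no edge of `F` lies inside a level, and a vertex of level `l` has at most `l - i` neighbours
on the levels `i, i+1, ..., l-1`. -/
structure LevelStructure (F : SimpleGraph V) (d : ℕ) (ℓ : V → ℕ) : Prop where
  lt : ∀ v, ℓ v < d
  indep : ∀ u v, F.Adj u v → ℓ u ≠ ℓ v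
  bound : ∀ v i, i ≤ ℓ v → Set.ncard {u | F.Adj v u ∧ i ≤ ℓ u ∧ ℓ u < ℓ v} ≤ ℓ v - i

section comb

open Classical in
/-- neighbours of `v` inside `S`. -/
noncomputable def nb (F : SimpleGraph V) (S : Finset V) (v : V) : Finset V :=
  S.filter (fun w => F.Adj v w)

open Classical in
/-- neighbours of `v` inside `S` of lower level. -/
noncomputable def low (F : SimpleGraph V) (ℓ : V → ℕ) (S : Finset V) (v : V) : Finset V :=
  S.filter (fun w => F.Adj v w ∧ ℓ w < ℓ v)

open Classical in
/-- staircase sets. -/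
def Stair (d : ℕ) (ℓ : V → ℕ) (T : Finset V) : Prop :=
  ∀ i, (T.filter (fun w => i ≤ ℓ w)).card ≤ d - i

omit [Fintype V] in
lemma mem_nb {F : SimpleGraph V} {S : Finset V} {v w : V} :
    w ∈ nb F S v ↔ w ∈ S ∧ F.Adj v w := by
  simp [nb]

omit [Fintype V] in
lemma mem_low {F : SimpleGraph V} {ℓ : V → ℕ} {S : Finset V} {v w : V} :
    w ∈ low F ℓ S v ↔ w ∈ S ∧ F.Adj v w ∧ ℓ w < ℓ v := by
  simp [low]

omit [Fintype V] in
lemma nb_subset (F : SimpleGraph V) (S : Finset V) (v : V) : nb F S v ⊆ S := by
  intro w hw; exact (mem_nb.1 hw).1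

omit [Fintype V] in
lemma low_subset (F : SimpleGraph V) (ℓ : V → ℕ) (S : Finset V) (v : V) : low F ℓ S v ⊆ S := by
  intro w hw; exact (mem_low.1 hw).1

open Classical in
lemma LevelStructure.bound' {F : SimpleGraph V} {d : ℕ} {ℓ : V → ℕ}
    (h : LevelStructure F d ℓ) (v : V) (i : ℕ) (hi : i ≤ ℓ v) (T : Finset V)
    (hT : ∀ w ∈ T, F.Adj v w ∧ i ≤ ℓ w ∧ ℓ w < ℓ v) : T.card ≤ ℓ v - i := by
  refine le_trans ?_ (h.bound v i hi)
  rw [← Set.ncard_coe_finset]
  exact Set.ncard_le_ncard (fun w hw => hT w (by simpa using hw)) (Set.toFinite _)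

/-- The combinatorial core of the staircase lemma. -/
lemma comb_core {F : SimpleGraph V} {d : ℕ} {ℓ : V → ℕ} (h : LevelStructure F d ℓ)
    (S W : Finset V) (T₀ : Finset V) (hT₀ : Stair d ℓ T₀) (hWT : W ⊆ T₀)
    (htop : ∀ v ∈ S, (∀ w ∈ S, ℓ w ≤ ℓ v) → v ∈ W)
    (hC : ∀ v ∈ S, v ∉ W → Stair d ℓ (nb F S v) → ∀ w ∈ W, F.Adj v w) :
    Stair d ℓ S := by
  classical
  by_contra hcon
  unfold Stair at hcon
  push Not at hcon
  -- choose the largest bad level
  obtain ⟨i₀, hi₀⟩ := hcon
  have hbd : ∀ i, d - i < (S.filter (fun w => i ≤ ℓ w)).card → i ≤ d := by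
    intro i hi
    by_contra hid
    have : (S.filter (fun w => i ≤ ℓ w)) = ∅ := by
      apply Finset.filter_eq_empty_iff.2
      intro w _ hw
      have := h.lt w
      omega
    rw [this] at hi
    simp at hi
  let P : ℕ → Prop := fun i => d - i < (S.filter (fun w => i ≤ ℓ w)).card
  have hex : ∃ i, P i ∧ ∀ j, P j → j ≤ i := by
    refine ⟨Nat.findGreatest P d, Nat.findGreatest_spec (hbd i₀ hi₀) hi₀, ?_⟩
    intro j hj
    exact Nat.le_findGreatest (hbd j hj) hj
  obtain ⟨i, hi, himax⟩ := hex
  have hgood : ∀ j, i < j → (S.filter (fun w => j ≤ ℓ w)).card ≤ d - j := by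
    intro j hj
    by_contra hc
    have := himax j (not_le.1 hc)
    omega
  -- all vertices at levels ≥ i have staircase neighbourhoods
  have hst : ∀ v ∈ S, i ≤ ℓ v → Stair d ℓ (nb F S v) := by
    intro v hv hiv j
    rcases lt_or_ge i j with hij | hij
    · refine le_trans (Finset.card_le_card ?_) (hgood j hij)
      intro w hw
      simp only [Finset.mem_filter] at hw ⊢
      exact ⟨nb_subset _ _ _ hw.1, hw.2⟩
    · have hsub : (nb F S v).filter (fun w => j ≤ ℓ w) ⊆
          ((nb F S v).filter (fun w => j ≤ ℓ w ∧ ℓ w < ℓ v)) ∪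
            S.filter (fun w => ℓ v + 1 ≤ ℓ w) := by
        intro w hw
        simp only [Finset.mem_filter, Finset.mem_union, mem_nb] at hw ⊢
        have := h.indep _ _ hw.1.2
        rcases lt_trichotomy (ℓ w) (ℓ v) with h1 | h1 | h1
        · exact Or.inl ⟨hw.1, hw.2, h1⟩
        · exact absurd h1.symm this
        · exact Or.inr ⟨hw.1.1, h1⟩
      have h1 : ((nb F S v).filter (fun w => j ≤ ℓ w ∧ ℓ w < ℓ v)).card ≤ ℓ v - j := by
        apply h.bound' v j (by omega)
        intro w hw
        simp only [Finset.mem_filter, mem_nb] at hw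
        exact ⟨hw.1.2, hw.2⟩
      have h2 := hgood (ℓ v + 1) (by omega)
      have h3 := h.lt v
      calc _ ≤ _ := Finset.card_le_card hsub
        _ ≤ _ := Finset.card_union_le _ _
        _ ≤ (ℓ v - j) + (d - (ℓ v + 1)) := by omega
        _ ≤ d - j := by omega
  -- black vertices at levels ≥ i are adjacent to all white vertices
  have hblack : ∀ v ∈ S, i ≤ ℓ v → v ∉ W → ∀ w ∈ W, F.Adj v w := fun v hv hiv hvW =>
    hC v hv hvW (hst v hv hiv)
  -- some black vertex
  have hexb : ∃ v ∈ S, i ≤ ℓ v ∧ v ∉ W := by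
    by_contra hno
    push Not at hno
    have : (S.filter (fun w => i ≤ ℓ w)) ⊆ (T₀.filter (fun w => i ≤ ℓ w)) := by
      intro w hw
      simp only [Finset.mem_filter] at hw ⊢
      exact ⟨hWT (hno w hw.1 hw.2), hw.2⟩
    have h1 := Finset.card_le_card this
    have h2 := hT₀ i
    have h3 : d - i < _ := hi
    omega
  have hne : (S.filter (fun w => i ≤ ℓ w)).Nonempty := by
    rw [← Finset.card_pos]
    have h3 : d - i < _ := hi
    omega
  -- the first colour change
  let Q : ℕ → Prop := fun s => ∃ v ∈ S, ∃ w ∈ S, i ≤ ℓ w ∧ ℓ w ≤ ℓ v ∧ ℓ v = s ∧ (v ∈ W ↔ w ∉ W)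
  have hQ : ∃ s, Q s := by
    obtain ⟨b, hb, hib, hbW⟩ := hexb
    obtain ⟨t, ht, htmax⟩ := Finset.exists_max_image S ℓ ⟨b, hb⟩
    have htW := htop t ht htmax
    exact ⟨ℓ t, t, ht, b, hb, hib, htmax b hb, rfl, by simp [htW, hbW]⟩
  obtain ⟨v, hv, w₀, hw₀, hiw₀, hwv, hvs, hcol⟩ := Nat.find_spec hQ
  have hmin : ∀ m, m < ℓ v → ¬ Q m := by
    intro m hm
    rw [hvs] at hm
    exact Nat.find_min hQ hm
  have hlev : ∀ a ∈ S, ∀ b ∈ S, i ≤ ℓ a → ℓ a = ℓ b → (a ∈ W ↔ b ∈ W) := by
    intro a ha b hb hia hab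
    by_contra hne'
    by_cases haW : a ∈ W
    · have hbW : b ∉ W := fun hbW => hne' ⟨fun _ => hbW, fun _ => haW⟩
      exact h.indep _ _ (hblack b hb (by omega) hbW a haW) hab.symm
    · have hbW : b ∈ W := by
        by_contra hbW
        exact hne' ⟨fun h => absurd h haW, fun h => absurd h hbW⟩
      exact h.indep _ _ (hblack a ha hia haW b hbW) hab
  have hwv' : ℓ w₀ < ℓ v := by
    rcases hwv.lt_or_eq with h1 | h1
    · exact h1
    · have := hlev w₀ hw₀ v hv hiw₀ h1
      tauto
  -- all vertices of levels in [i, ℓ v) have the colour opposite to v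
  have hopp : ∀ w ∈ S, i ≤ ℓ w → ℓ w < ℓ v → (v ∈ W ↔ w ∉ W) := by
    intro w hw hiw hwl
    by_contra hne'
    -- then w and w₀ have different colours
    have hdiff : (w ∈ W ↔ w₀ ∉ W) := by tauto
    rcases le_total (ℓ w) (ℓ w₀) with h1 | h1
    · exact hmin (ℓ w₀) hwv' ⟨w₀, hw₀, w, hw, hiw, h1, rfl, by tauto⟩
    · exact hmin (ℓ w) hwl ⟨w, hw, w₀, hw₀, hiw₀, h1, rfl, by tauto⟩
  have hadj : ∀ w ∈ S, i ≤ ℓ w → ℓ w < ℓ v → F.Adj v w := by
    intro w hw hiw hwl
    by_cases hvW : v ∈ W
    · have hwW : w ∉ W := (hopp w hw hiw hwl).1 hvW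
      exact (hblack w hw hiw hwW v hvW).symm
    · have hwW : w ∈ W := by
        have := hopp w hw hiw hwl
        tauto
      exact hblack v hv (by omega) hvW w hwW
  have hcard1 : (S.filter (fun w => i ≤ ℓ w ∧ ℓ w < ℓ v)).card ≤ ℓ v - i := by
    apply h.bound' v i (by omega)
    intro w hw
    simp only [Finset.mem_filter] at hw
    exact ⟨hadj w hw.1 hw.2.1 hw.2.2, hw.2⟩
  have hcard2 := hgood (ℓ v) (by omega)
  have hsub : S.filter (fun w => i ≤ ℓ w) ⊆
      (S.filter (fun w => i ≤ ℓ w ∧ ℓ w < ℓ v)) ∪ S.filter (fun w => ℓ v ≤ ℓ w) := by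
    intro w hw
    simp only [Finset.mem_filter, Finset.mem_union] at hw ⊢
    rcases lt_or_ge (ℓ w) (ℓ v) with h1 | h1
    · exact Or.inl ⟨hw.1, hw.2, h1⟩
    · exact Or.inr ⟨hw.1, h1⟩
  have h3 := h.lt v
  have h4 : d - i < _ := hi
  have h5 := (Finset.card_le_card hsub).trans (Finset.card_union_le _ _)
  omega

end comb

section geom

variable {E : Type*} [NormedAddCommGroup E] [InnerProductSpace ℝ E]

/-- Linear independence on a finite set is an open condition. -/
lemma eventually_linearIndepOn {u : V → E} {s : Set V} (h : LinearIndepOn ℝ u s) :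
    ∀ᶠ u' in 𝓝 u, LinearIndepOn ℝ u' s := by
  have h1 : LinearIndependent ℝ (fun x : s => u x) := h
  have h2 := h1.eventually
  have h3 : Continuous (fun u' : V → E => (fun x : s => u' x)) := by fun_prop
  exact h3.continuousAt.eventually h2

open Classical in
/-- Continuous lifting of a vector orthogonal to a linearly independent family. -/
lemma exists_lift (u₀ : V → E) (x₀ : E) (s : Finset V) (hs : LinearIndepOn ℝ u₀ (s : Set V))
    (hx : ∀ w ∈ s, ⟪u₀ w, x₀⟫_ℝ = 0) :
    ∃ Φ : (V → E) → E, ContinuousAt Φ u₀ ∧ Φ u₀ = x₀ ∧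
      ∀ᶠ u in 𝓝 u₀, ∀ w ∈ s, ⟪u w, Φ u⟫_ℝ = 0 := by
  let G : (V → E) → Matrix s s ℝ := fun u => Matrix.gram ℝ (fun x : s => u x)
  let b : (V → E) → s → ℝ := fun u x => ⟪u x, x₀⟫_ℝ
  have hG : Continuous G := by
    apply continuous_matrix
    intro i j
    simp only [G, Matrix.gram_apply]
    fun_prop
  have hb : Continuous b := by
    apply continuous_pi
    intro i
    simp only [b]
    fun_prop
  have hdet : ∀ᶠ u in 𝓝 u₀, (G u).det ≠ 0 := by
    filter_upwards [eventually_linearIndepOn hs] with u hu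
    exact Matrix.det_gram_ne_zero_iff_linearIndependent.2 hu
  have hdet0 : (G u₀).det ≠ 0 := hdet.self_of_nhds
  let c : (V → E) → s → ℝ := fun u => (G u)⁻¹.mulVec (b u)
  have hGinv : ContinuousAt (fun u => (G u)⁻¹) u₀ := by
    have h1 : (fun u => (G u)⁻¹) = fun u => (Ring.inverse (G u).det) • (G u).adjugate := by
      funext u
      rw [Matrix.inv_def]
    rw [h1]
    refine Filter.Tendsto.smul ?_ ?_
    · have h2 : (fun u => Ring.inverse (G u).det) = fun u => ((G u).det)⁻¹ := by
        funext u
        rw [Ring.inverse_eq_inv]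
      rw [h2, Ring.inverse_eq_inv]
      exact Filter.Tendsto.inv₀ (hG.matrix_det.continuousAt) hdet0
    · exact hG.matrix_adjugate.continuousAt
  have hc : ContinuousAt c u₀ := by
    rw [continuousAt_pi]
    intro i
    simp only [c, Matrix.mulVec, dotProduct]
    apply tendsto_finsetSum
    intro j _
    apply Filter.Tendsto.mul
    · have := hGinv
      rw [ContinuousAt] at this
      exact ((continuous_apply_apply i j).continuousAt.tendsto.comp this)
    · exact ((continuous_apply j).comp hb).continuousAt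
  refine ⟨fun u => x₀ - ∑ w : s, c u w • u w, ?_, ?_, ?_⟩
  · apply ContinuousAt.sub continuousAt_const
    apply tendsto_finsetSum
    intro j _
    apply Filter.Tendsto.smul
    · exact (continuousAt_pi.1 hc j)
    · exact (continuous_apply (j : V)).continuousAt
  · have : b u₀ = 0 := by
      funext w
      exact hx w w.2
    have hc0 : c u₀ = 0 := by
      simp [c, this]
    simp [hc0]
  · filter_upwards [hdet] with u hu w hw
    have key : (G u).mulVec (c u) = b u := by
      simp only [c, Matrix.mulVec_mulVec]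
      rw [Matrix.mul_nonsing_inv _ (isUnit_iff_ne_zero.2 hu), Matrix.one_mulVec]
    have key2 := congrFun key ⟨w, hw⟩
    simp only [Matrix.mulVec, dotProduct, G, Matrix.gram_apply, b] at key2
    rw [inner_sub_right, inner_sum, sub_eq_zero, ← key2]
    apply Finset.sum_congr rfl
    intro j _
    rw [inner_smul_right, mul_comm]

/-- configurations on `S`. -/
def Good (F : SimpleGraph V) (ℓ : V → ℕ) (S : Finset V) (u : V → E) : Prop :=
  (∀ a ∈ S, ∀ b ∈ S, F.Adj a b → ⟪u a, u b⟫_ℝ = 0) ∧
    ∀ v ∈ S, LinearIndepOn ℝ u (low F ℓ S v : Set V)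

omit [Fintype V] in
lemma Good.mono {F : SimpleGraph V} {ℓ : V → ℕ} {S S' : Finset V} {u : V → E}
    (h : Good F ℓ S u) (hS : S' ⊆ S) : Good F ℓ S' u := by
  refine ⟨fun a ha b hb hab => h.1 a (hS ha) b (hS hb) hab, fun v hv => ?_⟩
  refine (h.2 v (hS hv)).mono ?_
  intro w hw
  have hw' := mem_low.1 (Finset.mem_coe.1 hw)
  exact Finset.mem_coe.2 (mem_low.2 ⟨hS hw'.1, hw'.2⟩)

open Classical in
/-- Passing to a point near which the matroid is constant. -/
lemma exists_constant_matroid (P : Set (V → E)) (O : Set (V → E)) (hO : IsOpen O)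
    (u₀ : V → E) (hu₀ : u₀ ∈ P) (hu₀O : u₀ ∈ O) :
    ∃ u₁ ∈ P, u₁ ∈ O ∧ ∀ᶠ u in 𝓝 u₁, u ∈ P →
      ∀ T : Finset V, (LinearIndepOn ℝ u (T : Set V) ↔ LinearIndepOn ℝ u₁ (T : Set V)) := by
  let I : (V → E) → Finset (Finset V) := fun u =>
    Finset.univ.filter (fun T => LinearIndepOn ℝ u (T : Set V))
  let N := Fintype.card (Finset V)
  have hN : ∀ u, (I u).card ≤ N := fun u => Finset.card_le_univ _
  let m : (V → E) → ℕ := fun u => N - (I u).card
  obtain ⟨u₁, ⟨hu₁P, hu₁O⟩, hmin⟩ :=
    (measure m).wf.has_min (P ∩ O) ⟨u₀, hu₀, hu₀O⟩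
  refine ⟨u₁, hu₁P, hu₁O, ?_⟩
  have h1 : ∀ᶠ u in 𝓝 u₁, ∀ T ∈ I u₁, LinearIndepOn ℝ u (T : Set V) := by
    rw [Filter.eventually_all_finset]
    intro T hT
    exact eventually_linearIndepOn (Finset.mem_filter.1 hT).2
  filter_upwards [h1, hO.mem_nhds hu₁O] with u hu huO huP T
  have hsub : I u₁ ⊆ I u := by
    intro T hT
    exact Finset.mem_filter.2 ⟨Finset.mem_univ _, hu T hT⟩
  have hle : (I u).card ≤ (I u₁).card := by
    have := hmin u ⟨huP, huO⟩
    have h2 : ¬ (m u < m u₁) := this
    have h3 := hN u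
    have h4 := hN u₁
    simp only [m] at h2
    omega
  have heq := Finset.eq_of_subset_of_card_le hsub hle
  have : T ∈ I u₁ ↔ T ∈ I u := by rw [heq]
  simpa [I] using this.symm

open Classical in
/-- The staircase lemma: every staircase set can be made linearly independent by an arbitrarily
small perturbation within the set of good configurations. -/
lemma staircase_dense {F : SimpleGraph V} {d : ℕ} {ℓ : V → ℕ} (h : LevelStructure F d ℓ)
    [FiniteDimensional ℝ E] (hd : Module.finrank ℝ E = d) :
    ∀ (n : ℕ) (S : Finset V), S.card = n → ∀ T : Finset V, T ⊆ S → Stair d ℓ T →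
      ∀ u : V → E, Good F ℓ S u →
        ∃ᶠ u' in 𝓝 u, Good F ℓ S u' ∧ LinearIndepOn ℝ u' (T : Set V) := by
  intro n
  induction n using Nat.strong_induction_on with
  | _ n ih =>
  intro S hSn T₀ hT₀S hT₀ u₀ hu₀
  by_contra hcon
  rw [Filter.not_frequently] at hcon
  obtain ⟨O, hOsub, hOopen, hOmem⟩ := mem_nhds_iff.1 hcon
  obtain ⟨u₁, hu₁, hu₁O, hconst⟩ :=
    exists_constant_matroid {u | Good F ℓ S u} O hOopen u₀ hu₀ hOmem
  have hu₁' : Good F ℓ S u₁ := hu₁
  have hT₀dep : ¬ LinearIndepOn ℝ u₁ (T₀ : Set V) := by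
    intro hi
    exact (hOsub hu₁O) ⟨hu₁, hi⟩
  -- moving one vertex
  have hmove : ∀ v ∈ S, LinearIndepOn ℝ u₁ (nb F S v : Set V) →
      ∀ T : Finset V, T ⊆ S → v ∉ T → Stair d ℓ T → LinearIndepOn ℝ u₁ (T : Set V) := by
    intro v hv hvi T hTS hvT hT
    by_contra hTdep
    have hcard : (S.erase v).card < n := by
      rw [← hSn]; exact Finset.card_erase_lt_of_mem hv
    have hTS' : T ⊆ S.erase v := by
      intro w hw
      exact Finset.mem_erase.2 ⟨fun h => hvT (h ▸ hw), hTS hw⟩
    have hfreq := ih _ hcard (S.erase v) rfl T hTS' hT u₁ (hu₁'.mono (Finset.erase_subset _ _))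
    obtain ⟨Φ, hΦc, hΦ0, hΦ⟩ := exists_lift u₁ (u₁ v) (nb F S v) hvi (by
      intro w hw
      have := mem_nb.1 hw
      exact hu₁'.1 w this.1 v hv this.2.symm)
    let Ψ : (V → E) → (V → E) := fun u => Function.update u v (Φ u)
    have hΨc : ContinuousAt Ψ u₁ := by
      apply ContinuousAt.update continuousAt_id
      exact hΦc
    have hΨ0 : Ψ u₁ = u₁ := by
      simp only [Ψ, hΦ0]
      exact Function.update_eq_self _ _
    have hΨt : Tendsto Ψ (𝓝 u₁) (𝓝 u₁) := by
      have := hΨc.tendsto
      rwa [hΨ0] at this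
    have h1 := hΨt.eventually hconst
    have h2 : ∀ᶠ u in 𝓝 u₁, ∀ w ∈ S, LinearIndepOn ℝ (Ψ u) (low F ℓ S w : Set V) := by
      rw [Filter.eventually_all_finset]
      intro w hw
      exact hΨt.eventually (eventually_linearIndepOn (hu₁'.2 w hw))
    obtain ⟨u, ⟨huG, huT⟩, hu1, hu2, hu3⟩ := (hfreq.and_eventually (h1.and (h2.and hΦ))).exists
    have hgood : Good F ℓ S (Ψ u) := by
      refine ⟨?_, hu2⟩
      intro a ha b hb hab
      by_cases hav : a = v
      · subst hav
        have hba : b ≠ a := hab.ne'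
        simp only [Ψ, Function.update_self, Function.update_of_ne hba]
        rw [real_inner_comm]
        exact hu3 b (mem_nb.2 ⟨hb, hab⟩)
      · by_cases hbv : b = v
        · subst hbv
          simp only [Ψ, Function.update_self, Function.update_of_ne hav]
          exact hu3 a (mem_nb.2 ⟨ha, hab.symm⟩)
        · simp only [Ψ, Function.update_of_ne hav, Function.update_of_ne hbv]
          exact huG.1 a (Finset.mem_erase.2 ⟨hav, ha⟩) b (Finset.mem_erase.2 ⟨hbv, hb⟩) hab
    have hTi : LinearIndepOn ℝ (Ψ u) (T : Set V) := by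
      apply huT.congr
      intro w hw
      have hwv : w ≠ v := fun h => hvT (h ▸ hw)
      simp only [Ψ, Function.update_of_ne hwv]
    exact hTdep ((hu1 hgood T).1 hTi)
  -- the white vertices
  let W : Finset V := S.filter (fun v => LinearIndepOn ℝ u₁ (nb F S v : Set V))
  have hA : ∀ T : Finset V, T ⊆ S → Stair d ℓ T → ¬ LinearIndepOn ℝ u₁ (T : Set V) → W ⊆ T := by
    intro T hTS hT hTdep v hv
    by_contra hvT
    have hv' := Finset.mem_filter.1 hv
    exact hTdep (hmove v hv'.1 hv'.2 T hTS hvT hT)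
  have htopnb : ∀ v ∈ S, (∀ w ∈ S, ℓ w ≤ ℓ v) → nb F S v = low F ℓ S v := by
    intro v hv hmax
    ext w
    rw [mem_nb, mem_low]
    constructor
    · rintro ⟨h1, h2⟩
      exact ⟨h1, h2, lt_of_le_of_ne (hmax w h1) (fun h' => h.indep _ _ h2 h'.symm)⟩
    · rintro ⟨h1, h2, _⟩
      exact ⟨h1, h2⟩
  have hB : ∀ v ∈ S, (∀ w ∈ S, ℓ w ≤ ℓ v) → v ∈ W := by
    intro v hv hmax
    refine Finset.mem_filter.2 ⟨hv, ?_⟩
    rw [htopnb v hv hmax]
    exact hu₁'.2 v hv
  have hC : ∀ v ∈ S, v ∉ W → Stair d ℓ (nb F S v) → ∀ w ∈ W, F.Adj v w := by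
    intro v hv hvW hst w hw
    have hdep : ¬ LinearIndepOn ℝ u₁ (nb F S v : Set V) := by
      intro hi
      exact hvW (Finset.mem_filter.2 ⟨hv, hi⟩)
    exact (mem_nb.1 (hA _ (nb_subset _ _ _) hst hdep hw)).2
  have hSst : Stair d ℓ S := comb_core h S W T₀ hT₀ (hA T₀ hT₀S hT₀ hT₀dep) hB hC
  -- a top vertex
  have hSne : S.Nonempty := by
    rw [Finset.nonempty_iff_ne_empty]
    rintro rfl
    have : T₀ = ∅ := Finset.subset_empty.1 hT₀S
    subst this
    apply hT₀dep
    simp
  obtain ⟨v, hv, hvmax⟩ := Finset.exists_max_image S ℓ hSne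
  have hvW := hB v hv hvmax
  have hvnb : LinearIndepOn ℝ u₁ (nb F S v : Set V) := (Finset.mem_filter.1 hvW).2
  have hSdep : ¬ LinearIndepOn ℝ u₁ (S : Set V) := by
    intro hi
    exact hT₀dep (hi.mono (by exact_mod_cast hT₀S))
  have hstE : Stair d ℓ (S.erase v) := by
    intro i
    refine le_trans (Finset.card_le_card ?_) (hSst i)
    exact Finset.filter_subset_filter _ (Finset.erase_subset _ _)
  have hEi : LinearIndepOn ℝ u₁ ((S.erase v : Finset V) : Set V) :=
    hmove v hv hvnb _ (Finset.erase_subset _ _) (Finset.notMem_erase _ _) hstE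
  have hins : (S : Set V) = insert v ((S.erase v : Finset V) : Set V) := by
    rw [← Finset.coe_insert, Finset.insert_erase hv]
  let K : Submodule ℝ E := Submodule.span ℝ (u₁ '' ((S.erase v : Finset V) : Set V))
  have hvK : u₁ v ∈ K := by
    by_contra hvK
    apply hSdep
    rw [hins, linearIndepOn_insert (by simp)]
    exact ⟨hEi, hvK⟩
  have hxK : ∀ x : E, (∀ w ∈ nb F S v, ⟪u₁ w, x⟫_ℝ = 0) → x ∈ K := by
    intro x hx
    let Θ : ℝ → (V → E) := fun t => Function.update u₁ v (u₁ v + t • x)
    have hΘc : Continuous Θ := by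
      apply Continuous.update continuous_const
      fun_prop
    have hΘ0 : Θ 0 = u₁ := by
      simp [Θ]
    have hΘt : Tendsto Θ (𝓝 0) (𝓝 u₁) := by
      have := hΘc.tendsto 0
      rwa [hΘ0] at this
    have h1 := hΘt.eventually hconst
    have h2 : ∀ᶠ t in 𝓝 (0:ℝ), ∀ w ∈ S, LinearIndepOn ℝ (Θ t) (low F ℓ S w : Set V) := by
      rw [Filter.eventually_all_finset]
      intro w hw
      exact hΘt.eventually (eventually_linearIndepOn (hu₁'.2 w hw))
    have h3 : ∃ t : ℝ, t ≠ 0 ∧ (Θ t ∈ {u | Good F ℓ S u} → ∀ T : Finset V,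
        (LinearIndepOn ℝ (Θ t) (T : Set V) ↔ LinearIndepOn ℝ u₁ (T : Set V))) ∧
        (∀ w ∈ S, LinearIndepOn ℝ (Θ t) (low F ℓ S w : Set V)) := by
      have h4 := (h1.and h2)
      have h5 : ∃ᶠ t in 𝓝 (0:ℝ), t ≠ 0 := by
        rw [Filter.frequently_iff_neBot] 
        exact (inferInstance : (𝓝[≠] (0:ℝ)).NeBot)
      obtain ⟨t, ht, ht'⟩ := (h5.and_eventually h4).exists
      exact ⟨t, ht, ht'.1, ht'.2⟩
    obtain ⟨t, ht0, ht1, ht2⟩ := h3
    have hgood : Good F ℓ S (Θ t) := by
      refine ⟨?_, ht2⟩
      intro a ha b hb hab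
      by_cases hav : a = v
      · subst hav
        have hba : b ≠ a := hab.ne'
        simp only [Θ, Function.update_self, Function.update_of_ne hba]
        rw [inner_add_left, inner_smul_left, hu₁'.1 a ha b hb hab, real_inner_comm,
          hx b (mem_nb.2 ⟨hb, hab⟩)]
        simp
      · by_cases hbv : b = v
        · subst hbv
          simp only [Θ, Function.update_self, Function.update_of_ne hav]
          rw [inner_add_right, inner_smul_right, hu₁'.1 a ha b hb hab,
            hx a (mem_nb.2 ⟨ha, hab.symm⟩)]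
          simp
        · simp only [Θ, Function.update_of_ne hav, Function.update_of_ne hbv]
          exact hu₁'.1 a ha b hb hab
    have hdep : ¬ LinearIndepOn ℝ (Θ t) (S : Set V) := by
      rw [ht1 hgood S]
      exact hSdep
    have hagree : Set.EqOn u₁ (Θ t) ((S.erase v : Finset V) : Set V) := by
      intro w hw
      have hwv : w ≠ v := (Finset.mem_erase.1 (Finset.mem_coe.1 hw)).1
      simp only [Θ, Function.update_of_ne hwv]
    have hind : LinearIndepOn ℝ (Θ t) ((S.erase v : Finset V) : Set V) := hEi.congr hagree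
    have himg : (Θ t) '' ((S.erase v : Finset V) : Set V) =
        u₁ '' ((S.erase v : Finset V) : Set V) := (Set.EqOn.image_eq hagree).symm
    have hmem : Θ t v ∈ K := by
      by_contra hvK'
      apply hdep
      rw [hins, linearIndepOn_insert (by simp), himg]
      exact ⟨hind, hvK'⟩
    have hmem' : u₁ v + t • x ∈ K := by
      simpa [Θ] using hmem
    have htx : t • x ∈ K := by
      have := K.sub_mem hmem' hvK
      simpa using this
    exact (K.smul_mem_iff ht0).1 htx
  have hKtop : K = ⊤ := by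
    rw [eq_top_iff]
    intro x _
    let L : Submodule ℝ E := Submodule.span ℝ (u₁ '' (nb F S v : Set V))
    have hLK : L ≤ K := by
      apply Submodule.span_mono
      apply Set.image_mono
      intro w hw
      have hw' := mem_nb.1 (Finset.mem_coe.1 hw)
      exact Finset.mem_coe.2 (Finset.mem_erase.2 ⟨hw'.2.ne', hw'.1⟩)
    have hperp : Lᗮ ≤ K := by
      intro y hy
      apply hxK
      intro w hw
      exact (Submodule.mem_orthogonal _ _).1 hy _ (Submodule.subset_span ⟨w, hw, rfl⟩)
    have hsup : L ⊔ Lᗮ = ⊤ := Submodule.sup_orthogonal_of_hasOrthogonalProjection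
    have : L ⊔ Lᗮ ≤ K := sup_le hLK hperp
    rw [hsup] at this
    exact this trivial
  have hrank : d ≤ (S.erase v).card := by
    have h1 : Module.finrank ℝ K = d := by
      rw [hKtop, finrank_top, hd]
    have h2 : Module.finrank ℝ K ≤ ((S.erase v).image u₁).card := by
      have := finrank_span_finset_le_card (R := ℝ) ((S.erase v).image u₁)
      rw [Set.finrank, Finset.coe_image] at this
      exact this
    have h3 := Finset.card_image_le (s := S.erase v) (f := u₁)
    omega
  have hcardS : S.card ≤ d := by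
    have := hSst 0
    simpa using this
  have := Finset.card_erase_lt_of_mem hv
  omega

open Classical in
/-- Existence of a faithful good configuration on every vertex set. -/
lemma exists_faithful {F : SimpleGraph V} {d : ℕ} {ℓ : V → ℕ} (h : LevelStructure F d ℓ)
    [FiniteDimensional ℝ E] (hd : Module.finrank ℝ E = d) :
    ∀ (n : ℕ) (S : Finset V), S.card = n → ∃ u : V → E, Good F ℓ S u ∧
      ∀ a ∈ S, ∀ b ∈ S, a ≠ b → ¬ F.Adj a b → ⟪u a, u b⟫_ℝ ≠ 0 := by
  intro n
  induction n with
  | zero =>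
    intro S hS
    rw [Finset.card_eq_zero] at hS
    subst hS
    exact ⟨0, ⟨by simp, by simp⟩, by simp⟩
  | succ n ih =>
    intro S hS
    have hSne : S.Nonempty := by
      rw [← Finset.card_pos]; omega
    obtain ⟨v, hv, hvmax⟩ := Finset.exists_max_image S ℓ hSne
    have hcard : (S.erase v).card = n := by
      rw [Finset.card_erase_of_mem hv]; omega
    obtain ⟨u₀, hu₀, hu₀f⟩ := ih (S.erase v) hcard
    set S' := S.erase v with hS'
    -- the requirement sets
    let A : Finset V := S'.filter (fun a => ¬ F.Adj v a)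
    let N : Finset V := low F ℓ S v
    have hNS' : N ⊆ S' := by
      intro w hw
      have hw' := mem_low.1 hw
      exact Finset.mem_erase.2 ⟨hw'.2.1.ne', hw'.1⟩
    have hNst : ∀ i, (N.filter (fun w => i ≤ ℓ w)).card ≤ ℓ v - i := by
      intro i
      rcases le_or_gt i (ℓ v) with hi | hi
      · apply h.bound' v i hi
        intro w hw
        have hw1 := Finset.mem_filter.1 hw
        have hw2 := mem_low.1 hw1.1
        exact ⟨hw2.2.1, hw1.2, hw2.2.2⟩
      · have : N.filter (fun w => i ≤ ℓ w) = ∅ := by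
          apply Finset.filter_eq_empty_iff.2
          intro w hw hiw
          have hw2 := mem_low.1 hw
          omega
        rw [this]; simp
    have hNstair : ∀ a ∈ S', Stair d ℓ (insert a N) := by
      intro a ha i
      have hav : ℓ a ≤ ℓ v := hvmax a (Finset.erase_subset _ _ ha)
      have hlt := h.lt v
      rw [Finset.filter_insert]
      have h1 := hNst i
      by_cases hia : i ≤ ℓ a
      · rw [if_pos hia]
        have := Finset.card_insert_le a (N.filter (fun w => i ≤ ℓ w))
        omega
      · rw [if_neg hia]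
        omega
    have hNstair0 : Stair d ℓ N := by
      intro i
      have h1 := hNst i
      have hlt := h.lt v
      omega
    -- perturb so that N ∪ {a} is independent for all a ∈ B
    have hpert : ∀ B : Finset V, B ⊆ A → ∃ u : V → E, Good F ℓ S' u ∧
        (∀ a ∈ S', ∀ b ∈ S', a ≠ b → ¬ F.Adj a b → ⟪u a, u b⟫_ℝ ≠ 0) ∧
        LinearIndepOn ℝ u (N : Set V) ∧
        ∀ a ∈ B, LinearIndepOn ℝ u ((insert a N : Finset V) : Set V) := by
      intro B
      induction B using Finset.induction_on with
      | empty =>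
        intro _
        have hfreq := staircase_dense h hd _ S' rfl N hNS' hNstair0 u₀ hu₀
        have hev : ∀ᶠ u in 𝓝 u₀, ∀ a ∈ S', ∀ b ∈ S', a ≠ b → ¬ F.Adj a b → ⟪u a, u b⟫_ℝ ≠ 0 := by
          rw [Filter.eventually_all_finset]
          intro a ha
          rw [Filter.eventually_all_finset]
          intro b hb
          by_cases hab : a ≠ b
          · by_cases hF : F.Adj a b
            · exact Filter.Eventually.of_forall (fun _ _ h' => absurd hF h')
            · have hc : Continuous (fun u : V → E => ⟪u a, u b⟫_ℝ) := by fun_prop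
              have := hc.continuousAt.eventually_ne (hu₀f a ha b hb hab hF)
              filter_upwards [this] with u hu _ _
              exact hu
          · exact Filter.Eventually.of_forall (fun _ h' => absurd h' hab)
        obtain ⟨u, ⟨hu1, hu2⟩, hu3⟩ := (hfreq.and_eventually hev).exists
        exact ⟨u, hu1, hu3, hu2, by simp⟩
      | insert c B hcB ihB =>
        intro hB
        obtain ⟨u₂, hu2a, hu2b, hu2c, hu2d⟩ :=
          ihB (fun x hx => hB (Finset.mem_insert_of_mem hx))
        have hcA : c ∈ A := hB (Finset.mem_insert_self _ _)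
        have hcS' : c ∈ S' := (Finset.mem_filter.1 hcA).1
        have hfreq := staircase_dense h hd _ S' rfl (insert c N)
          (Finset.insert_subset hcS' hNS') (hNstair c hcS') u₂ hu2a
        have hev : ∀ᶠ u in 𝓝 u₂, ∀ a ∈ S', ∀ b ∈ S', a ≠ b → ¬ F.Adj a b → ⟪u a, u b⟫_ℝ ≠ 0 := by
          rw [Filter.eventually_all_finset]
          intro a ha
          rw [Filter.eventually_all_finset]
          intro b hb
          by_cases hab : a ≠ b
          · by_cases hF : F.Adj a b
            · exact Filter.Eventually.of_forall (fun _ _ h' => absurd hF h')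
            · have hc : Continuous (fun u : V → E => ⟪u a, u b⟫_ℝ) := by fun_prop
              have := hc.continuousAt.eventually_ne (hu2b a ha b hb hab hF)
              filter_upwards [this] with u hu _ _
              exact hu
          · exact Filter.Eventually.of_forall (fun _ h' => absurd h' hab)
        have hev2 : ∀ᶠ u in 𝓝 u₂, ∀ a ∈ B,
            LinearIndepOn ℝ u ((insert a N : Finset V) : Set V) := by
          rw [Filter.eventually_all_finset]
          intro a ha
          exact eventually_linearIndepOn (hu2d a ha)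
        obtain ⟨u, ⟨hu1, hu2⟩, hu3, hu4⟩ := (hfreq.and_eventually (hev.and hev2)).exists
        refine ⟨u, hu1, hu3, hu2.mono ?_, ?_⟩
        · intro w hw
          simp only [Finset.coe_insert, Set.mem_insert_iff]
          exact Or.inr hw
        · intro a ha
          rcases Finset.mem_insert.1 ha with rfl | ha
          · exact hu2
          · exact hu4 a ha
    obtain ⟨u, hu1, hu2, hu3, hu4⟩ := hpert A (Finset.Subset.refl _)
    -- choose the vector of v
    let L : Submodule ℝ E := (Submodule.span ℝ (u '' (N : Set V)))ᗮ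
    have hx : ∃ x ∈ L, ∀ a ∈ A, a ∉ N → ⟪x, u a⟫_ℝ ≠ 0 := by
      -- finitely many proper subspaces of L
      let P : V → Submodule ℝ L := fun a => LinearMap.ker ((innerSL ℝ (u a)).toLinearMap ∘ₗ L.subtype)
      let PP : Finset (Submodule ℝ L) := (A.filter (fun a => a ∉ N)).image P
      have hnt : (⊤ : Submodule ℝ L) ∉ PP := by
        intro htop
        obtain ⟨a, ha, hPa⟩ := Finset.mem_image.1 htop
        have ha' := Finset.mem_filter.1 ha
        have hind := hu4 a ha'.1
        rw [Finset.coe_insert, linearIndepOn_insert (by simpa using ha'.2)] at hind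
        apply hind.2
        -- u a is orthogonal to L = span^⊥, so in span
        have hmem : u a ∈ Lᗮ := by
          rw [Submodule.mem_orthogonal]
          intro y hy
          have : (⟨y, hy⟩ : L) ∈ P a := by rw [hPa]; trivial
          have h2 : ⟪u a, y⟫_ℝ = 0 := by simpa [P] using this
          rw [real_inner_comm]; exact h2
        rw [Submodule.orthogonal_orthogonal] at hmem
        exact hmem
      have hun := Subspace.biUnion_ne_univ_of_top_notMem (k := ℝ) (E := L) (s := PP) hnt
      obtain ⟨x, hx⟩ := (Set.ne_univ_iff_exists_notMem _).1 hun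
      refine ⟨x, x.2, ?_⟩
      intro a ha haN hzero
      apply hx
      simp only [Set.mem_iUnion]
      refine ⟨P a, Finset.mem_image.2 ⟨a, Finset.mem_filter.2 ⟨ha, haN⟩, rfl⟩, ?_⟩
      simp only [P, SetLike.mem_coe, LinearMap.mem_ker]
      rw [real_inner_comm] at hzero
      simpa using hzero
    obtain ⟨x, hxL, hxA⟩ := hx
    have hxN : ∀ w ∈ N, ⟪u w, x⟫_ℝ = 0 := fun w hw =>
      (Submodule.mem_orthogonal _ _).1 hxL _ (Submodule.subset_span ⟨w, hw, rfl⟩)
    refine ⟨Function.update u v x, ⟨?_, ?_⟩, ?_⟩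
    · intro a ha b hb hab
      by_cases hav : a = v
      · subst hav
        have hba : b ≠ a := hab.ne'
        rw [Function.update_self, Function.update_of_ne hba, real_inner_comm]
        apply hxN
        exact mem_low.2 ⟨hb, hab, lt_of_le_of_ne (hvmax b hb) (fun h' => h.indep _ _ hab h'.symm)⟩
      · by_cases hbv : b = v
        · subst hbv
          rw [Function.update_self, Function.update_of_ne hav]
          apply hxN
          exact mem_low.2 ⟨ha, hab.symm, lt_of_le_of_ne (hvmax a ha) (fun h' => h.indep _ _ hab h')⟩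
        · rw [Function.update_of_ne hav, Function.update_of_ne hbv]
          exact hu1.1 a (Finset.mem_erase.2 ⟨hav, ha⟩) b (Finset.mem_erase.2 ⟨hbv, hb⟩) hab
    · intro w hw
      have hagree : Set.EqOn u (Function.update u v x) (low F ℓ S w : Set V) := by
        intro z hz
        have hz' := mem_low.1 (Finset.mem_coe.1 hz)
        have hzv : z ≠ v := by
          rintro rfl
          have := hvmax w hw
          omega
        rw [Function.update_of_ne hzv]
      refine LinearIndepOn.congr ?_ hagree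
      by_cases hwv : w = v
      · subst hwv
        exact hu3
      · have := hu1.2 w (Finset.mem_erase.2 ⟨hwv, hw⟩)
        refine this.mono ?_
        intro z hz
        have hz' := mem_low.1 (Finset.mem_coe.1 hz)
        have hzv : z ≠ v := by
          rintro rfl
          have := hvmax w hw
          omega
        exact Finset.mem_coe.2 (mem_low.2 ⟨Finset.mem_erase.2 ⟨hzv, hz'.1⟩, hz'.2⟩)
    · intro a ha b hb hab hF
      by_cases hav : a = v
      · subst hav
        have hba : b ≠ a := hab.symm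
        rw [Function.update_self, Function.update_of_ne hba]
        apply hxA b (Finset.mem_filter.2 ⟨Finset.mem_erase.2 ⟨hba, hb⟩, hF⟩)
        intro hbN
        exact hF (mem_low.1 hbN).2.1
      · by_cases hbv : b = v
        · subst hbv
          rw [Function.update_self, Function.update_of_ne hav, real_inner_comm]
          apply hxA a (Finset.mem_filter.2 ⟨Finset.mem_erase.2 ⟨hav, ha⟩, fun h' => hF h'.symm⟩)
          intro haN
          exact hF (mem_low.1 haN).2.1.symm
        · rw [Function.update_of_ne hav, Function.update_of_ne hbv]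
          exact hu2 a (Finset.mem_erase.2 ⟨hav, ha⟩) b (Finset.mem_erase.2 ⟨hbv, hb⟩) hab hF

end geom

/-- A configuration that is orthogonal exactly along the edges of the complement of `G`, and in
which the lower neighbours of every vertex are linearly independent, gives a positive
semidefinite matrix with the strong Arnold property. -/
theorem matrix_of_good {E : Type*} [NormedAddCommGroup E] [InnerProductSpace ℝ E]
    [FiniteDimensional ℝ E] [DecidableEq V] (G : SimpleGraph V) (ℓ : V → ℕ)
    (hindep : ∀ u v, Gᶜ.Adj u v → ℓ u ≠ ℓ v) (u : V → E) (hu : Good Gᶜ ℓ Finset.univ u)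
    (huf : ∀ a ∈ (Finset.univ : Finset V), ∀ b ∈ (Finset.univ : Finset V), a ≠ b →
      ¬ Gᶜ.Adj a b → ⟪u a, u b⟫_ℝ ≠ 0) :
    ∃ A : Matrix V V ℝ, A.PosSemidef ∧ (∀ i j, i ≠ j → (A i j ≠ 0 ↔ G.Adj i j)) ∧
      (∀ X : Matrix V V ℝ, X.IsSymm → (∀ i, X i i = 0) →
            (∀ i j, G.Adj i j → X i j = 0) → A * X = 0 → X = 0) ∧
      A.rank ≤ Module.finrank ℝ E := by
  classical
  refine ⟨Matrix.gram ℝ u, Matrix.posSemidef_gram ℝ u, ?_, ?_, ?_⟩
  · intro i j hij
    rw [Matrix.gram_apply]
    constructor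
    · intro hne
      by_contra hG
      exact hne (hu.1 i (Finset.mem_univ _) j (Finset.mem_univ _)
        ((SimpleGraph.compl_adj _ _ _).2 ⟨hij, hG⟩))
    · intro hG
      exact huf i (Finset.mem_univ _) j (Finset.mem_univ _) hij
        (fun hc => ((SimpleGraph.compl_adj _ _ _).1 hc).2 hG)
  · intro X hXs hX0 hXG hAX
    have hcol : ∀ j, ∑ i, X i j • u i = 0 := by
      intro j
      have horth : ∀ k, ⟪u k, ∑ i, X i j • u i⟫_ℝ = 0 := by
        intro k
        have h1 : (Matrix.gram ℝ u * X) k j = 0 := by rw [hAX]; rfl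
        rw [Matrix.mul_apply] at h1
        rw [inner_sum, ← h1]
        apply Finset.sum_congr rfl
        intro i _
        rw [inner_smul_right, Matrix.gram_apply, mul_comm]
      have hself : ⟪∑ i, X i j • u i, ∑ i, X i j • u i⟫_ℝ = 0 := by
        rw [sum_inner]
        apply Finset.sum_eq_zero
        intro i _
        rw [inner_smul_left, horth i, mul_zero]
      exact inner_self_eq_zero.1 hself
    let d := Finset.univ.sup ℓ + 1
    have hltd : ∀ v, ℓ v < d := fun v =>
      Nat.lt_succ_of_le (Finset.le_sup (f := ℓ) (Finset.mem_univ v))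
    -- downward induction on levels
    have hkey : ∀ m : ℕ, ∀ j, d - ℓ j = m → ∀ i, ℓ i < ℓ j → X i j = 0 := by
      intro m
      induction m using Nat.strong_induction_on with
      | _ m ih =>
      intro j hj i hij
      by_cases hF : Gᶜ.Adj j i
      · have hind := hu.2 j (Finset.mem_univ _)
        rw [linearIndepOn_finset_iff] at hind
        apply hind (fun i => X i j) _ i (mem_low.2 ⟨Finset.mem_univ _, hF, hij⟩)
        rw [← hcol j]
        apply Finset.sum_subset (Finset.subset_univ _)
        intro w _ hw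
        have : X w j = 0 := by
          by_cases hFw : Gᶜ.Adj j w
          · have hne := hindep _ _ hFw
            have hge : ¬ (ℓ w < ℓ j) := fun hlt =>
              hw (mem_low.2 ⟨Finset.mem_univ _, hFw, hlt⟩)
            have hlt : ℓ j < ℓ w := by omega
            have h1 := hltd w
            have := ih (d - ℓ w) (by omega) w rfl j hlt
            rw [← hXs.apply]
            exact this
          · by_cases hjw : j = w
            · subst hjw; exact hX0 j
            · have hG : G.Adj j w := by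
                by_contra hG
                exact hFw ((SimpleGraph.compl_adj _ _ _).2 ⟨hjw, hG⟩)
              exact hXG w j hG.symm
        rw [this, zero_smul]
      · have hji : j ≠ i := by rintro rfl; omega
        have hG : G.Adj j i := by
          by_contra hG
          exact hF ((SimpleGraph.compl_adj _ _ _).2 ⟨hji, hG⟩)
        exact hXG i j hG.symm
    ext i j
    rcases lt_trichotomy (ℓ i) (ℓ j) with hij | hij | hij
    · exact hkey _ j rfl i hij
    · by_cases hij' : i = j
      · subst hij'; exact hX0 i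
      · have hG : G.Adj i j := by
          by_contra hG
          exact hindep i j ((SimpleGraph.compl_adj _ _ _).2 ⟨hij', hG⟩) hij
        exact hXG i j hG
    · rw [← hXs.apply]
      exact hkey _ i rfl j hij
  · have h1 := Matrix.gram_eq_conjTranspose_mul (𝕜 := ℝ) (stdOrthonormalBasis ℝ E) u
    rw [h1]
    refine (Matrix.rank_mul_le_right _ _).trans ?_
    refine (Matrix.rank_le_card_height _).trans ?_
    simp

/-- Main library theorem: a level structure of the complement gives a positive semidefinite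
matrix with the strong Arnold property and rank at most `d`. -/
theorem exists_matrix_of_levelStructure [DecidableEq V] (G : SimpleGraph V) (d : ℕ) (ℓ : V → ℕ)
    (h : LevelStructure Gᶜ d ℓ) :
    ∃ A : Matrix V V ℝ, A.PosSemidef ∧ (∀ i j, i ≠ j → (A i j ≠ 0 ↔ G.Adj i j)) ∧
      (∀ X : Matrix V V ℝ, X.IsSymm → (∀ i, X i i = 0) →
            (∀ i j, G.Adj i j → X i j = 0) → A * X = 0 → X = 0) ∧ A.rank ≤ d := by
  classical
  have hd : Module.finrank ℝ (EuclideanSpace ℝ (Fin d)) = d := by simp
  obtain ⟨u, hu, huf⟩ := exists_faithful (E := EuclideanSpace ℝ (Fin d)) h hd _ Finset.univ rfl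
  have := matrix_of_good G ℓ h.indep u hu huf
  rwa [hd] at this

end Pool.Agent.Lib.MP_23961f_co
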