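import Pool.Agent.Lib.MP_23961f_co.Levels

set_option autoImplicit false

namespace Pool.Agent.Lib.MP_23961f_co

variable {V : Type*} [Fintype V]

open Classical in
/-- If every vertex of the nonempty set `S` has at least `a` neighbours of `G` inside `S`,
then the complement of `G` has a level structure in dimension `|V| - a`. -/
lemma exists_levelStructure_of_subset (G : SimpleGraph V) (S : Finset V) (hS : S.Nonempty) (a : ℕ)
    (ha : ∀ v ∈ S, a ≤ (S.filter (fun u => G.Adj v u)).card) :
    ∃ ℓ : V → ℕ, LevelStructure Gᶜ (Fintype.card V - a) ℓ := by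
  -- level structure on S
  let F' : SimpleGraph S := Gᶜ.comap (fun x : S => (x : V))
  have hF' : ∀ v : S, Set.ncard {u : S | F'.Adj v u} < S.card - a := by
    intro v
    have h1 : Set.ncard {u : S | F'.Adj v u} ≤ (S.filter (fun u => Gᶜ.Adj v u)).card := by
      rw [← Set.ncard_coe_finset, ← Set.ncard_image_of_injective _ Subtype.val_injective]
      apply Set.ncard_le_ncard _ (Set.toFinite _)
      rintro x ⟨y, hy, rfl⟩
      exact Finset.mem_coe.2 (Finset.mem_filter.2 ⟨y.2, hy⟩)
    have h2 : (S.filter (fun u => Gᶜ.Adj v u)).card + (S.filter (fun u => G.Adj v u)).card + 1 ≤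
        S.card := by
      have h3 : insert (v : V) ((S.filter (fun u => Gᶜ.Adj v u)) ∪
          (S.filter (fun u => G.Adj v u))) ⊆ S := by
        intro x hx
        rcases Finset.mem_insert.1 hx with h | h
        · rw [h]; exact v.2
        · rcases Finset.mem_union.1 h with h | h
          · exact (Finset.mem_filter.1 h).1
          · exact (Finset.mem_filter.1 h).1
      have h4 := Finset.card_le_card h3
      rw [Finset.card_insert_of_notMem, Finset.card_union_of_disjoint] at h4
      · omega
      · rw [Finset.disjoint_left]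
        intro x hx hx2
        exact ((SimpleGraph.compl_adj _ _ _).1 (Finset.mem_filter.1 hx).2).2
          (Finset.mem_filter.1 hx2).2
      · intro hx
        rcases Finset.mem_union.1 hx with h | h
        · exact (Gᶜ).loopless.irrefl _ (Finset.mem_filter.1 h).2
        · exact G.loopless.irrefl _ (Finset.mem_filter.1 h).2
    have h5 := ha v v.2
    omega
  obtain ⟨ℓS, hℓS⟩ := exists_levelStructure_of_degree F' (S.card - a) hF'
  -- the vertices outside S
  let R := {v : V // v ∉ S}
  let r := Fintype.card R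
  have hr : r + S.card = Fintype.card V := by
    have : r = Fintype.card V - Fintype.card {v : V // v ∈ S} := Fintype.card_subtype_compl _
    have h2 : Fintype.card {v : V // v ∈ S} = S.card := Fintype.card_coe S
    have h3 : S.card ≤ Fintype.card V := Finset.card_le_univ S
    omega
  have haS : a < S.card := by
    obtain ⟨v, hv⟩ := hS
    have := hF' ⟨v, hv⟩
    omega
  let e : R ≃ Fin r := Fintype.equivFin R
  let ℓ : V → ℕ := fun v => if h : v ∈ S then r + ℓS ⟨v, h⟩ else (e ⟨v, h⟩ : ℕ)
  have hin : ∀ v (h : v ∈ S), ℓ v = r + ℓS ⟨v, h⟩ := by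
    intro v h; simp [ℓ, h]
  have hout : ∀ v (h : v ∉ S), ℓ v = (e ⟨v, h⟩ : ℕ) := by
    intro v h; simp [ℓ, h]
  have houtlt : ∀ v (_ : v ∉ S), ℓ v < r := by
    intro v h; rw [hout v h]; exact (e ⟨v, h⟩).2
  have hinj : ∀ u v, u ∉ S → v ∉ S → ℓ u = ℓ v → u = v := by
    intro u v hu hv h
    rw [hout u hu, hout v hv] at h
    have := e.injective (Fin.ext h)
    exact congrArg Subtype.val this
  refine ⟨ℓ, ?_, ?_, ?_⟩
  · intro v
    by_cases h : v ∈ S
    · rw [hin v h]
      have := hℓS.lt ⟨v, h⟩
      omega
    · have := houtlt v h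
      omega
  · intro u v huv he
    by_cases hu : u ∈ S
    · by_cases hv : v ∈ S
      · rw [hin u hu, hin v hv] at he
        exact hℓS.indep ⟨u, hu⟩ ⟨v, hv⟩ huv (by omega)
      · have := houtlt v hv
        rw [hin u hu] at he
        omega
    · by_cases hv : v ∈ S
      · have := houtlt u hu
        rw [hin v hv] at he
        omega
      · exact huv.ne (hinj u v hu hv he)
  · intro v i hi
    have hcardout : ∀ (T : Finset V) (p q : ℕ), (∀ w ∈ T, w ∉ S ∧ p ≤ ℓ w ∧ ℓ w < q) →
        T.card ≤ q - p := by
      intro T p q hT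
      have : (T.image ℓ).card = T.card := by
        apply Finset.card_image_of_injOn
        intro x hx y hy hxy
        exact hinj x y (hT x hx).1 (hT y hy).1 hxy
      rw [← this]
      have h2 : T.image ℓ ⊆ Finset.Ico p q := by
        intro m hm
        obtain ⟨w, hw, rfl⟩ := Finset.mem_image.1 hm
        exact Finset.mem_Ico.2 (hT w hw).2
      have := Finset.card_le_card h2
      rwa [Nat.card_Ico] at this
    have hset : {u | Gᶜ.Adj v u ∧ i ≤ ℓ u ∧ ℓ u < ℓ v} =
        ((Finset.univ.filter (fun u => Gᶜ.Adj v u ∧ i ≤ ℓ u ∧ ℓ u < ℓ v) : Finset V) : Set V) := by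
      ext u; simp
    rw [hset, Set.ncard_coe_finset]
    by_cases hv : v ∈ S
    · have hsplit : (Finset.univ.filter (fun u => Gᶜ.Adj v u ∧ i ≤ ℓ u ∧ ℓ u < ℓ v)) ⊆
          (Finset.univ.filter (fun u => u ∉ S ∧ i ≤ ℓ u ∧ ℓ u < r)) ∪
          ((Finset.univ.filter (fun u : S => F'.Adj ⟨v, hv⟩ u ∧ i - r ≤ ℓS u ∧
            ℓS u < ℓS ⟨v, hv⟩)).map ⟨fun x : S => (x : V), Subtype.val_injective⟩) := by
        intro u hu
        have hu' := (Finset.mem_filter.1 hu).2
        by_cases huS : u ∈ S
        · apply Finset.mem_union_right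
          refine Finset.mem_map.2 ⟨⟨u, huS⟩, ?_, rfl⟩
          have e1 := hin u huS
          have e2 := hin v hv
          exact Finset.mem_filter.2 ⟨Finset.mem_univ _, hu'.1, by omega, by omega⟩
        · apply Finset.mem_union_left
          exact Finset.mem_filter.2 ⟨Finset.mem_univ _, huS, hu'.2.1, houtlt u huS⟩
      have h1 : (Finset.univ.filter (fun u => u ∉ S ∧ i ≤ ℓ u ∧ ℓ u < r)).card ≤ r - i :=
        hcardout _ i r (fun w hw => (Finset.mem_filter.1 hw).2)
      have e2 := hin v hv
      have h2 : (Finset.univ.filter (fun u : S => F'.Adj ⟨v, hv⟩ u ∧ i - r ≤ ℓS u ∧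
            ℓS u < ℓS ⟨v, hv⟩)).card ≤ ℓS ⟨v, hv⟩ - (i - r) := by
        apply hℓS.bound' ⟨v, hv⟩ (i - r) (by omega)
        intro w hw
        exact (Finset.mem_filter.1 hw).2
      have h3 := (Finset.card_le_card hsplit).trans (Finset.card_union_le _ _)
      rw [Finset.card_map] at h3
      rcases le_or_gt i r with hir | hir
      · omega
      · have h4 : r - i = 0 := by omega
        omega
    · apply hcardout _ i (ℓ v)
      intro w hw
      have hw' := (Finset.mem_filter.1 hw).2
      refine ⟨?_, hw'.2⟩
      intro hwS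
      have := hin w hwS
      have := houtlt v hv
      omega

end Pool.Agent.Lib.MP_23961f_co
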